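import Pool.Agent.Z864.UB.Main

/-! Transfer of bounds from transcendence degree one to all transcendence degrees. -/

set_option autoImplicit false

namespace Pool.Agent.Q15.TD

open Polynomial

universe u v

section

variable {k : Type u} {K : Type v} [Field k] [Field K] [Algebra k K]

lemma sub_finrank {B S : Set K} {b : K} (h : S ∪ {b} = B)
    [FiniteDimensional (IntermediateField.adjoin k B) K] :
    FiniteDimensional (IntermediateField.adjoin (IntermediateField.adjoin k S) {b}) K ∧
      Module.finrank (IntermediateField.adjoin (IntermediateField.adjoin k S) {b}) K =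
        Module.finrank (IntermediateField.adjoin k B) K := by
  have h1 : (IntermediateField.adjoin (IntermediateField.adjoin k S) {b}).restrictScalars k =
      IntermediateField.adjoin k B := by
    rw [IntermediateField.adjoin_adjoin_left, h]
  have h2 : FiniteDimensional
      ((IntermediateField.adjoin (IntermediateField.adjoin k S) {b}).restrictScalars k) K := by
    rw [h1]
    infer_instance
  have h3 : Module.finrank
      ((IntermediateField.adjoin (IntermediateField.adjoin k S) {b}).restrictScalars k) K =
        Module.finrank (IntermediateField.adjoin k B) K := by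
    rw [h1]
  exact ⟨h2, h3⟩

/-- affine conjugation is conjugation -/
lemma ca_of_affine {d : ℕ} {f : K[X]} (hf : f.natDegree = d) {y b : K} (hy : y ≠ 0)
    (h : ∀ m, IsAlgebraic k ((C y⁻¹ * (f.comp (C y * X + C b) - C b)).coeff m)) :
    Pool.Agent.Z864.UB.CA k f 1 d := by
  set g : K[X] := C y⁻¹ * (f.comp (C y * X + C b) - C b) with hg
  have hgd : g.natDegree ≤ d := by
    rw [hg]
    refine (natDegree_C_mul_le _ _).trans ?_
    refine (natDegree_sub_le _ _).trans (max_le ?_ ?_)
    · refine natDegree_comp_le.trans ?_
      rw [hf]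
      calc d * (C y * X + C b).natDegree ≤ d * 1 := Nat.mul_le_mul_left _ natDegree_linear_le
        _ = d := Nat.mul_one _
    · rw [natDegree_C]
      exact Nat.zero_le _
  refine ⟨y⁻¹, -(y⁻¹ * b), 0, 1, ?_, g, 1, Or.inr one_ne_zero, hgd, ?_, h, ?_, ?_⟩
  · rw [mul_one, mul_zero, sub_zero]
    exact inv_ne_zero hy
  · rw [natDegree_one]
    exact Nat.zero_le _
  · intro n
    rw [coeff_one]
    split_ifs
    · exact isAlgebraic_one
    · exact isAlgebraic_zero
  · have e1 : ∀ A : K[X], A.natDegree ≤ d → ∀ L : K[X],
        Pool.Agent.Z864.UB.hcp d A L (C 0 * X + C 1) = A.comp L := by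
      intro A hA L
      show ∑ i ∈ Finset.range (d + 1), C (A.coeff i) * L ^ i * (C 0 * X + C 1) ^ (d - i) = _
      rw [comp, eval₂_eq_sum_range' C (Nat.lt_succ_of_le hA)]
      apply Finset.sum_congr rfl
      intro i _
      simp
    rw [e1 1 (by rw [natDegree_one]; exact Nat.zero_le _), e1 g hgd]
    have e2 : g.comp (C y⁻¹ * X + C (-(y⁻¹ * b))) = C y⁻¹ * f + C (-(y⁻¹ * b)) := by
      have e3 : (C y * X + C b).comp (C y⁻¹ * X + C (-(y⁻¹ * b))) = (X : K[X]) := by
        simp only [add_comp, mul_comp, C_comp, X_comp]
        rw [mul_add, ← mul_assoc, ← C_mul, mul_inv_cancel₀ hy, ← C_mul, C_1, one_mul, add_assoc,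
          ← C_add]
        have : y * -(y⁻¹ * b) + b = 0 := by
          field_simp
          ring
        rw [this, C_0, add_zero]
      rw [hg, mul_comp, C_comp, sub_comp, comp_assoc, e3, comp_X, C_comp]
      simp only [C_neg, C_mul]
      ring
    rw [e2, one_comp]
    simp


/-- **Transfer.** -/
theorem transfer {B : Set K} (hB : AlgebraicIndependent k ((↑) : B → K))
    [FiniteDimensional (IntermediateField.adjoin k B) K] {n d : ℕ}
    (hn : Module.finrank (IntermediateField.adjoin k B) K ≤ n) (hd : 2 ≤ d) {p q : K[X]}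
    (hco : IsCoprime p q) (hmax : max p.natDegree q.natDegree = d)
    (hiso : ¬ Pool.Agent.Z864.UB.CA k p q d) {M : ℕ} (hM : 2 * d + 1 ≤ M)
    (H : ∀ (k' : IntermediateField k K) (b : K), Transcendental k' b →
      FiniteDimensional (IntermediateField.adjoin k' {b}) K →
      Module.finrank (IntermediateField.adjoin k' {b}) K ≤ n →
      ¬ Pool.Agent.Z864.UB.CA k' p q d →
      {z : Option K | (Set.range fun m : ℕ =>
        (Pool.Agent.Z864.UB.rt p q d)^[m] z).Finite}.encard ≤ (M : ℕ∞)) :
    {z : Option K | (Set.range fun m : ℕ => (Pool.Agent.Z864.UB.rt p q d)^[m] z).Finite}.encard ≤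
      (M : ℕ∞) := by
  classical
  apply Pool.Agent.Z864.UB.encard_of_stable
  intro P hP
  by_contra hcon
  push Not at hcon
  apply hiso
  have hfin : ∀ z ∈ P, (Set.range fun m : ℕ =>
      (Pool.Agent.Z864.UB.rt p q d)^[m] z).Finite := by
    intro z hz
    apply P.finite_toSet.subset
    rintro _ ⟨m, rfl⟩
    rw [Finset.mem_coe]
    induction m with
    | zero => exact hz
    | succ m ih =>
      simp only
      rw [Function.iterate_succ_apply']
      exact hP _ ih
  refine Pool.Agent.Z864.UB.descent hB ?_ (fun _ => ∅) (fun b _ => Set.empty_subset _) hd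
    hmax hco (P := P) hP (by omega) ?_
  · intro x
    rw [Pool.Agent.Z864.UB.mem_cl]
    exact Algebra.IsAlgebraic.isAlgebraic x
  · intro b hb
    by_contra hni
    have hun : (B \ {b} ∪ ∅) ∪ {b} = B := by
      rw [Set.union_empty]
      exact Set.sdiff_union_of_subset (Set.singleton_subset_iff.2 hb)
    obtain ⟨h1, h2⟩ := sub_finrank (k := k) hun
    have htr : Transcendental (IntermediateField.adjoin k (B \ {b} ∪ ∅)) b := by
      intro h
      have h3 : b ∈ (Pool.Agent.Z864.UB.MM k K).closure (B \ {b} ∪ ∅) :=
        Pool.Agent.Z864.UB.mem_cl.mpr h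
      rw [Set.union_empty] at h3
      have hI : (Pool.Agent.Z864.UB.MM k K).Indep B :=
        AlgebraicIndependent.matroid_indep_iff.mpr hB
      exact hI.notMem_closure_sdiff_of_mem hb h3
    have h3 := H (IntermediateField.adjoin k (B \ {b} ∪ ∅)) b htr h1 (h2.le.trans hn)
      (fun h4 => hni (Pool.Agent.Z864.UB.CA_map h4))
    have h5 : (P : Set (Option K)) ⊆ {z : Option K | (Set.range fun m : ℕ =>
        (Pool.Agent.Z864.UB.rt p q d)^[m] z).Finite} := fun z hz => hfin z hz
    have h6 := (Set.encard_le_encard h5).trans h3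
    rw [Set.encard_coe_eq_coe_finsetCard] at h6
    have h7 : P.card ≤ M := by exact_mod_cast h6
    omega

/-- finite preperiodic points of a polynomial and preperiodic points of the line -/
theorem encard_some {f : K[X]} {d : ℕ} (hd : 1 ≤ d) :
    {z : K | (Set.range fun m : ℕ => (fun x => f.eval x)^[m] z).Finite}.encard ≤
      {z : Option K | (Set.range fun m : ℕ =>
        (Pool.Agent.Z864.UB.rt f 1 d)^[m] z).Finite}.encard ∧
    {z : Option K | (Set.range fun m : ℕ =>
        (Pool.Agent.Z864.UB.rt f 1 d)^[m] z).Finite}.encard ≤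
      {z : K | (Set.range fun m : ℕ => (fun x => f.eval x)^[m] z).Finite}.encard + 1 := by
  classical
  have hit : ∀ (x : K) (m : ℕ), (Pool.Agent.Z864.UB.rt f 1 d)^[m] (some x) =
      some ((fun x => f.eval x)^[m] x) := by
    intro x m
    induction m with
    | zero => rfl
    | succ m ih =>
      rw [Function.iterate_succ_apply', Function.iterate_succ_apply', ih]
      simp [Pool.Agent.Z864.UB.rt]
  have himg : ∀ x : K, (Set.range fun m : ℕ => (Pool.Agent.Z864.UB.rt f 1 d)^[m] (some x)) =
      some '' (Set.range fun m : ℕ => (fun x => f.eval x)^[m] x) := by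
    intro x
    rw [← Set.range_comp]
    congr 1
    funext m
    exact hit x m
  have hiff : ∀ x : K, (Set.range fun m : ℕ =>
      (Pool.Agent.Z864.UB.rt f 1 d)^[m] (some x)).Finite ↔
      (Set.range fun m : ℕ => (fun x => f.eval x)^[m] x).Finite := by
    intro x
    rw [himg]
    exact Set.finite_image_iff (Option.some_injective K).injOn
  constructor
  · rw [← (Option.some_injective K).encard_image]
    apply Set.encard_le_encard
    rintro _ ⟨x, hx, rfl⟩
    exact (hiff x).2 hx
  · rw [← (Option.some_injective K).encard_image]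
    have hsub : {z : Option K | (Set.range fun m : ℕ =>
        (Pool.Agent.Z864.UB.rt f 1 d)^[m] z).Finite} ⊆
        (some '' {z : K | (Set.range fun m : ℕ => (fun x => f.eval x)^[m] z).Finite}) ∪ {none} := by
      intro z hz
      cases z with
      | none => exact Or.inr rfl
      | some x => exact Or.inl ⟨x, (hiff x).1 hz, rfl⟩
    refine (Set.encard_le_encard hsub).trans ((Set.encard_union_le _ _).trans ?_)
    rw [Set.encard_singleton]

end

end Pool.Agent.Q15.TD
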