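import Pool.Agent.Q15.TD.T1

/-! Scalings. -/

set_option autoImplicit false

namespace Pool.Agent.Q15.TD

open Polynomial

universe u v

variable {k : Type u} {K : Type v} [Field k] [Field K] [Algebra k K]

/-- conjugation by a scaling is conjugation -/
theorem ca_of_scaling {d : ℕ} {p q : K[X]} (hp : p.natDegree ≤ d) (hq : q.natDegree ≤ d)
    (hq0 : q ≠ 0) {y c : K} (hy : y ≠ 0) (hc : c ≠ 0)
    (h1 : ∀ j, IsAlgebraic k ((C c * p.comp (C y * X)).coeff j))
    (h2 : ∀ j, IsAlgebraic k ((C (c * y) * q.comp (C y * X)).coeff j)) :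
    Pool.Agent.Z864.UB.CA k p q d := by
  have hdeg : ∀ (A : K) (r : K[X]), r.natDegree ≤ d → (C A * r.comp (C y * X)).natDegree ≤ d := by
    intro A r hr
    refine (natDegree_C_mul_le _ _).trans ?_
    refine natDegree_comp_le.trans ?_
    calc r.natDegree * (C y * X).natDegree ≤ d * 1 := by
          apply Nat.mul_le_mul hr
          exact (natDegree_C_mul_le _ _).trans natDegree_X_le
      _ = d := Nat.mul_one _
  have e1 : ∀ A : K[X], A.natDegree ≤ d → ∀ L : K[X],
      Pool.Agent.Z864.UB.hcp d A L (C 0 * X + C 1) = A.comp L := by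
    intro A hA L
    show ∑ i ∈ Finset.range (d + 1), C (A.coeff i) * L ^ i * (C 0 * X + C 1) ^ (d - i) = _
    rw [comp, eval₂_eq_sum_range' C (Nat.lt_succ_of_le hA)]
    apply Finset.sum_congr rfl
    intro i _
    simp
  have e3 : (C y * X).comp (C y⁻¹ * X + C 0) = (X : K[X]) := by
    simp only [mul_comp, C_comp, X_comp]
    rw [mul_add, ← mul_assoc, ← C_mul, mul_inv_cancel₀ hy, ← C_mul, C_1, one_mul, mul_zero, C_0,
      add_zero]
  have e4 : ∀ (A : K) (r : K[X]), (C A * r.comp (C y * X)).comp (C y⁻¹ * X + C 0) = C A * r := by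
    intro A r
    rw [mul_comp, C_comp, comp_assoc, e3, comp_X]
  refine ⟨y⁻¹, 0, 0, 1, ?_, C c * p.comp (C y * X), C (c * y) * q.comp (C y * X), ?_,
    hdeg _ _ hp, hdeg _ _ hq, h1, h2, ?_⟩
  · rw [mul_one, mul_zero, sub_zero]
    exact inv_ne_zero hy
  · right
    intro h0
    have h3 := e4 (c * y) q
    rw [h0, zero_comp] at h3
    have h4 : C (c * y) ≠ 0 := C_ne_zero.2 (mul_ne_zero hc hy)
    exact (mul_ne_zero h4 hq0) h3.symm
  · rw [e1 _ (hdeg _ _ hp), e1 _ (hdeg _ _ hq), e4, e4]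
    have e5 : (C (c * y) : K[X]) = C c * C y := C_mul
    have e6 : (C y⁻¹ : K[X]) * C y = 1 := by rw [← C_mul, inv_mul_cancel₀ hy, C_1]
    rw [e5, C_0, C_1]
    linear_combination (C c * p * q) * e6

end Pool.Agent.Q15.TD
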